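import Pool.Agent.L5helper12.CV.Defs

/-! CV13: the test function. -/

set_option autoImplicit false

open Filter Topology Set MeasureTheory

namespace Pool.Agent.L5helper43.CV

open Pool.Agent.L5helper12.PV
open Pool.Agent.L5helper12.TW (Kav_lip)
open Pool.Agent.Y744 (TK Kav)

theorem test_fn (a b ε : ℝ) (ha : 1 ≤ a) (hab : a < b) (hε : 0 < ε) :
    ∃ (κ w h c : ℝ) (K : ℝ → ℝ) (M : ℕ) (C B : ℝ), 0 < κ ∧ 0 < w ∧ 0 < h ∧ 0 < c ∧ TK κ K ∧ κ + 1 ≤ M ∧
      w ≤ ε ∧ b + w ≤ M ∧ 0 ≤ a - w ∧ KW (Kav K h) M C B ∧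
      (∀ α, 0 ≤ α → α ≤ 1 / 2 → Kav K h α = 0) ∧
      (∀ α, a - w ≤ α → α ≤ b + w → 1 ≤ c * Kav K h α) ∧
      c * mg (Kav K h) M ≤ 2 * (b - a + ε) := by
  have hpi := Real.pi_pos
  set w : ℝ := min (ε / 8) (1 / 8) with hw
  have hw0 : 0 < w := lt_min (by positivity) (by norm_num)
  have hw1 : w ≤ ε / 8 := min_le_left _ _
  have hw2 : w ≤ 1 / 8 := min_le_right _ _
  clear_value w
  let β : ContDiffBump ((a + b) / 2 : ℝ) :=
    ⟨(b - a) / 2 + w, (b - a) / 2 + 2 * w, by linarith, by linarith⟩
  have hβin : β.rIn = (b - a) / 2 + w := rfl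
  have hβout : β.rOut = (b - a) / 2 + 2 * w := rfl
  set κ : ℝ := b + 2 * w with hκ
  have hκ0 : 0 < κ := by linarith
  clear_value κ
  -- values of the bump
  have z1 : ∀ x : ℝ, b + 2 * w ≤ x → β x = 0 := by
    intro x hx
    refine β.zero_of_le_dist ?_
    rw [hβout, Real.dist_eq]
    refine le_trans ?_ (le_abs_self _)
    linarith
  have z2 : ∀ x : ℝ, x ≤ a - 2 * w → β x = 0 := by
    intro x hx
    refine β.zero_of_le_dist ?_
    rw [hβout, Real.dist_eq]
    refine le_trans ?_ (neg_le_abs _)
    linarith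
  have o1 : ∀ x : ℝ, a - w ≤ x → x ≤ b + w → β x = 1 := by
    intro x hx hx'
    refine β.one_of_mem_closedBall ?_
    rw [Metric.mem_closedBall, hβin, Real.dist_eq, abs_le]
    constructor <;> linarith
  have n1 : ∀ x : ℝ, 0 ≤ β x := fun x => β.nonneg
  have l1 : ∀ x : ℝ, β x ≤ 1 := fun x => β.le_one
  set K : ℝ → ℝ := fun x => β x + β (-x) with hK
  have hKn : ∀ x, 0 ≤ K x := fun x => add_nonneg (n1 _) (n1 _)
  have hK2 : ∀ x, K x ≤ 2 := fun x => by
    have h1 := l1 x
    have h2 := l1 (-x)
    simp only [hK]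
    linarith
  have hKpos : ∀ x, 0 ≤ x → K x = β x := by
    intro x hx
    simp only [hK]
    rw [z2 (-x) (by linarith), add_zero]
  have hTK : TK κ K := by
    refine ⟨?_, fun x => ?_, fun x hx => ?_⟩
    · exact β.contDiff.add (β.contDiff.comp contDiff_neg)
    · simp only [hK, neg_neg]
      exact add_comm _ _
    · rcases le_total 0 x with h0 | h0
      · rw [abs_of_nonneg h0] at hx
        rw [hKpos x h0]
        exact z1 x (by linarith)
      · rw [abs_of_nonpos h0] at hx
        simp only [hK]
        rw [z2 x (by linarith), z1 (-x) (by linarith), add_zero]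
  -- the constant
  set q : ℝ := (b - a + ε / 2) / (b - a + ε) with hq
  have hD : 0 < b - a + ε := by linarith
  have hq0 : 0 < q := div_pos (by linarith) hD
  have hq1 : q < 1 := by
    rw [hq, div_lt_one hD]
    linarith
  have hqD : q * (b - a + ε) = b - a + ε / 2 := by
    rw [hq]
    field_simp
  clear_value q
  obtain ⟨η, hη0, hη⟩ : ∃ η : ℝ, 0 < η ∧ ∀ x : ℝ, |x| < η → q < Real.sinc x := by
    have hc : Tendsto Real.sinc (𝓝 0) (𝓝 1) := by
      have := Real.continuous_sinc.tendsto 0
      rwa [Real.sinc_zero] at this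
    have h1 := hc.eventually (lt_mem_nhds hq1)
    obtain ⟨η, hη0, hη⟩ := Metric.eventually_nhds_iff.1 h1
    refine ⟨η, hη0, fun x hx => hη ?_⟩
    rwa [Real.dist_eq, sub_zero]
  set h : ℝ := η / (2 * Real.pi * (κ + 1)) with hh
  have hh0 : 0 < h := by positivity
  have hhη : 2 * Real.pi * h * (κ + 1) = η := by
    rw [hh]
    field_simp
  clear_value h
  have hs : ∀ α : ℝ, |α| ≤ κ → q < Real.sinc (2 * Real.pi * h * α) := by
    intro α hα
    refine hη _ ?_
    rw [abs_mul, abs_of_pos (by positivity)]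
    calc 2 * Real.pi * h * |α| ≤ 2 * Real.pi * h * κ := by gcongr
      _ < 2 * Real.pi * h * (κ + 1) := by
        refine mul_lt_mul_of_pos_left (by linarith) (by positivity)
      _ = η := hhη
  set c : ℝ := 1 / (2 * h * q) with hc
  have hc0 : 0 < c := by positivity
  have hcq : c * (2 * h) = 1 / q := by
    rw [hc]
    field_simp
  clear_value c
  obtain ⟨M, hM⟩ := exists_nat_ge (κ + 1)
  obtain ⟨C, hC⟩ := Kav_lip hTK hh0
  have hKav0 : ∀ α, 0 ≤ Kav K h α := by
    intro α
    unfold Kav
    rcases le_or_gt |α| κ with hα | hα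
    · have := (hq0.trans (hs α hα)).le
      have := hKn α
      positivity
    · rw [hTK.supp α hα, zero_mul]
  have hcK : ∀ α, c * Kav K h α ≤ K α * (1 / q) := by
    intro α
    have e : c * Kav K h α = K α * (c * (2 * h)) * Real.sinc (2 * Real.pi * h * α) := by
      unfold Kav
      ring
    rw [e, hcq]
    refine mul_le_of_le_one_right (mul_nonneg (hKn α) (by positivity)) ?_
    exact Real.sinc_le_one _
  have hcK1 : ∀ α, a - w ≤ α → α ≤ b + w → 1 ≤ c * Kav K h α := by
    intro α h1 h2
    have e : c * Kav K h α = K α * (c * (2 * h)) * Real.sinc (2 * Real.pi * h * α) := by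
      unfold Kav
      ring
    rw [e, hcq, hKpos α (by linarith), o1 α h1 h2, one_mul]
    have h3 := hs α (by rw [abs_of_nonneg (by linarith)]; linarith)
    rw [one_div, ← div_eq_inv_mul, le_div_iff₀ hq0]
    linarith
  have hKW : KW (Kav K h) M C (2 * (2 * h)) := by
    refine ⟨hKav0, hC, fun α hα => ?_, fun α => ?_⟩
    · unfold Kav
      rw [hTK.supp α (by rw [abs_of_nonneg (by linarith)]; linarith), zero_mul]
    · unfold Kav
      have h1 := hK2 α
      have h2 := hKn α
      have h3 := Real.sinc_le_one (2 * Real.pi * h * α)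
      calc K α * (2 * h * Real.sinc (2 * Real.pi * h * α)) ≤ K α * (2 * h * 1) := by gcongr
        _ ≤ 2 * (2 * h * 1) := by gcongr
        _ = 2 * (2 * h) := by ring
  refine ⟨κ, w, h, c, K, M, C, 2 * (2 * h), hκ0, hw0, hh0, hc0, hTK, hM, by linarith, by linarith,
    by linarith, hKW, fun α h0 h1 => ?_, hcK1, ?_⟩
  · unfold Kav
    rw [hKpos α h0, z2 α (by linarith), zero_mul]
  · -- the mass
    have hcont : Continuous fun α : ℝ => c * (Kav K h α * min α 1) :=
      continuous_const.mul (hKW.cont.mul (continuous_id.min continuous_const))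
    have hii : ∀ x y : ℝ, IntervalIntegrable (fun α : ℝ => c * (Kav K h α * min α 1)) volume x y :=
      fun x y => hcont.intervalIntegrable x y
    have e0 : Kav K h 0 = 0 := by
      unfold Kav
      rw [hKpos 0 le_rfl, z2 0 (by linarith), zero_mul]
    have e1 : c * mg (Kav K h) M = 2 * ∫ α in (0 : ℝ)..M, c * (Kav K h α * min α 1) := by
      unfold mg
      rw [e0, zero_add, intervalIntegral.integral_const_mul]
      ring
    rw [e1]
    have s1 : ∫ α in (0 : ℝ)..(a - 2 * w), c * (Kav K h α * min α 1) = 0 := by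
      rw [intervalIntegral.integral_congr (g := fun _ => (0 : ℝ))]
      · simp
      · intro α hα
        rw [uIcc_of_le (by linarith)] at hα
        simp only
        unfold Kav
        rw [hKpos α hα.1, z2 α hα.2]
        ring
    have s3 : ∫ α in (b + 2 * w)..M, c * (Kav K h α * min α 1) = 0 := by
      rw [intervalIntegral.integral_congr (g := fun _ => (0 : ℝ))]
      · simp
      · intro α hα
        rw [uIcc_of_le (by linarith)] at hα
        simp only
        unfold Kav
        rw [hKpos α (by linarith [hα.1]), z1 α hα.1]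
        ring
    have s2 : ∫ α in (a - 2 * w)..(b + 2 * w), c * (Kav K h α * min α 1) ≤
        (b - a + 4 * w) * (1 / q) := by
      have h1 : ∫ α in (a - 2 * w)..(b + 2 * w), c * (Kav K h α * min α 1) ≤
          ∫ _α in (a - 2 * w)..(b + 2 * w), 1 / q := by
        refine intervalIntegral.integral_mono_on (by linarith) (hii _ _) (by simp) fun α hα => ?_
        have h2 : 0 ≤ α := by linarith [hα.1]
        have h3 : c * Kav K h α ≤ 1 / q := by
          refine (hcK α).trans ?_
          rw [hKpos α h2]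
          exact mul_le_of_le_one_left (by positivity) (l1 α)
        have h4 : 0 ≤ c * Kav K h α := mul_nonneg hc0.le (hKav0 α)
        calc c * (Kav K h α * min α 1) = c * Kav K h α * min α 1 := by ring
          _ ≤ c * Kav K h α * 1 := by
            refine mul_le_mul_of_nonneg_left (min_le_right _ _) h4
          _ ≤ 1 / q := by rw [mul_one]; exact h3
      refine h1.trans ?_
      rw [intervalIntegral.integral_const, smul_eq_mul]
      refine mul_le_mul_of_nonneg_right (by linarith) (by positivity)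
    have s : ∫ α in (0 : ℝ)..M, c * (Kav K h α * min α 1) ≤ (b - a + 4 * w) * (1 / q) := by
      rw [← intervalIntegral.integral_add_adjacent_intervals (hii 0 (a - 2 * w)) (hii _ _),
        ← intervalIntegral.integral_add_adjacent_intervals (hii (a - 2 * w) (b + 2 * w)) (hii _ _),
        s1, s3]
      linarith
    have s' : (b - a + 4 * w) * (1 / q) ≤ b - a + ε := by
      rw [mul_one_div, div_le_iff₀ hq0]
      linarith [mul_comm (b - a + ε) q]
    linarith

end Pool.Agent.L5helper43.CV
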